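import Mathlib
import Pool.Agent.H617R2.Upper

set_option autoImplicit false

/-!
# Removing nondeterminism from once-marking 1-limited automata costs a single exponential

`costTwoDFA A n` is the quantity `f(n)` and `costDOMLA A n` the quantity `g(n)` of the problem, for
the input alphabet `A`.  Both take values in `ℕ∞`, so that the bounds below also say that they are
finite.
-/

namespace Pool.Agent.Results.MP_41802b_lc.OMLAExp

open Relation Pool.Agent.H617R2

/-- `f(n)`: the least `m` such that every `n`-state once-marking 1-limited automaton over the input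
alphabet `A` has an equivalent two-way deterministic finite automaton with at most `m` states. -/
noncomputable def costTwoDFA (A : Type) (n : ℕ) : ℕ∞ :=
  sInf {x | ∃ m : ℕ, x = (m : ℕ∞) ∧ ∀ M : MLA A (Fin n), M.OnceMarking →
    ∃ m' ≤ m, ∃ D : TwoDFA A (Fin m'), ∀ w : List A, D.Accepts w ↔ M.Accepts w}

/-- `g(n)`: the least `m` such that every `n`-state once-marking 1-limited automaton over the input
alphabet `A` has an equivalent deterministic once-marking 1-limited automaton with at most `m`
states. -/
noncomputable def costDOMLA (A : Type) (n : ℕ) : ℕ∞ :=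
  sInf {x | ∃ m : ℕ, x = (m : ℕ∞) ∧ ∀ M : MLA A (Fin n), M.OnceMarking →
    ∃ m' ≤ m, ∃ D : MLA A (Fin m'), D.OnceMarking ∧ D.Deterministic ∧
      ∀ w : List A, D.Accepts w ↔ M.Accepts w}

section Embed
variable {A Q : Type} (D : TwoDFA A Q)

/-- a two-way deterministic automaton as a once-marking automaton that never marks -/
def embed : MLA A Q where
  start := D.start
  final := D.final
  move q s := match s with
    | .lend => {r | D.move q .lend = some (r.1, r.2.2) ∧ r.2.1 = false}
    | .rend => {r | D.move q .rend = some (r.1, r.2.2) ∧ r.2.1 = false}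
    | .letter (a, false) => {r | D.move q (.letter a) = some (r.1, r.2.2) ∧ r.2.1 = false}
    | .letter (_, true) => ∅

lemma embed_no_mark (q : Q) (s : Cell (A × Bool)) (r : Q × Bool × Bool)
    (h : r ∈ (embed D).move q s) : r.2.1 = false := by
  rcases s with _ | _ | ⟨a, b⟩
  · exact h.2
  · exact h.2
  · cases b
    · exact h.2
    · exact absurd h (by simp [embed])

lemma embed_det : (embed D).Deterministic := by
  rintro q s ⟨p, m, d⟩ h ⟨p', m', d'⟩ h'
  have key : ∀ c : Cell A, (D.move q c = some (p, d) ∧ m = false) →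
      (D.move q c = some (p', d') ∧ m' = false) →
      (p, m, d) = (p', m', d') := by
    rintro c ⟨h1, h2⟩ ⟨h1', h2'⟩
    rw [h1] at h1'
    simp only [Option.some.injEq, Prod.mk.injEq] at h1'
    simp [h1'.1, h1'.2, h2, h2']
  rcases s with _ | _ | ⟨a, b⟩
  · exact key _ h h'
  · exact key _ h h'
  · cases b
    · exact key _ h h'
    · exact absurd h (by simp [embed])

lemma embed_marks (w : List A) (c : Config Q)
    (h : ReflTransGen ((embed D).Step w) (embed D).init c) : c.marks = ∅ := by
  induction h with
  | refl => rfl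
  | @tail c c' _ hs ih =>
    obtain ⟨m, d, h1, -, -, h4, -⟩ := hs
    have hm : m = false := embed_no_mark D _ _ _ h1
    rw [h4, hm, ih]
    simp

lemma embed_once : (embed D).OnceMarking := by
  intro w c h
  rw [embed_marks D w c h]
  simp

lemma cell_eq (w : List A) (i : ℕ) : (embed D).move = (embed D).move ∧
    ((cellOf w i = Cell.lend ∧ markedCell w ∅ i = Cell.lend) ∨
    (cellOf w i = Cell.rend ∧ markedCell w ∅ i = Cell.rend) ∨
    ∃ a, cellOf w i = Cell.letter a ∧ markedCell w ∅ i = Cell.letter (a, false)) := by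
  refine ⟨rfl, ?_⟩
  unfold cellOf markedCell
  by_cases hi : i = 0
  · simp [hi]
  · rw [if_neg hi, if_neg hi]
    rcases h : w[i - 1]? with _ | a
    · right; left; exact ⟨rfl, rfl⟩
    · right; right; exact ⟨a, rfl, by simp⟩

lemma embed_move_iff (w : List A) (i : ℕ) (q p : Q) (m d : Bool) :
    (p, m, d) ∈ (embed D).move q (markedCell w ∅ i) ↔
      (D.move q (cellOf w i) = some (p, d) ∧ m = false) := by
  rcases (cell_eq D w i).2 with ⟨h1, h2⟩ | ⟨h1, h2⟩ | ⟨a, h1, h2⟩ <;> rw [h1, h2] <;> rfl

lemma embed_accepts (w : List A) : (embed D).Accepts w ↔ D.Accepts w := by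
  constructor
  · rintro ⟨c, hc1, hc2, hr⟩
    refine ⟨c.state, hc1, ?_⟩
    have : ∀ c : Config Q, ReflTransGen ((embed D).Step w) (embed D).init c →
        ReflTransGen (D.Step w) (D.start, 0) (c.state, c.pos) := by
      intro c h
      induction h with
      | refl => exact ReflTransGen.refl
      | @tail c c' hr hs ih =>
        have hm := embed_marks D w c hr
        obtain ⟨m, d, h1, h2, -, -, -, h6⟩ := hs
        rw [hm, embed_move_iff] at h1
        refine ReflTransGen.tail ih ⟨h2, ?_⟩
        cases d
        · right; exact ⟨h1.1, by simpa using h6⟩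
        · left; exact ⟨h1.1, by simpa using h6⟩
    have h := this c hr
    rwa [hc2] at h
  · rintro ⟨q, hq, hr⟩
    have : ∀ c : Q × ℕ, ReflTransGen (D.Step w) (D.start, 0) c →
        ∃ seen : Finset ℕ, ReflTransGen ((embed D).Step w) (embed D).init ⟨c.1, c.2, ∅, seen⟩ := by
      intro c h
      induction h with
      | refl => exact ⟨∅, ReflTransGen.refl⟩
      | @tail c c' _ hs ih =>
        obtain ⟨seen, ih⟩ := ih
        obtain ⟨h1, h2⟩ := hs
        refine ⟨insert c.2 seen, ?_⟩
        rcases h2 with ⟨h2, h3⟩ | ⟨h2, h3⟩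
        · refine ReflTransGen.tail ih ⟨false, true, ?_, h1, by simp, by simp, by simp, by simpa using h3⟩
          exact (embed_move_iff D w c.2 c.1 c'.1 false true).2 ⟨h2, rfl⟩
        · refine ReflTransGen.tail ih ⟨false, false, ?_, h1, by simp, by simp, by simp, by simpa using h3⟩
          exact (embed_move_iff D w c.2 c.1 c'.1 false false).2 ⟨h2, rfl⟩
    obtain ⟨seen, h⟩ := this _ hr
    exact ⟨⟨q, w.length + 2, ∅, seen⟩, hq, rfl, h⟩

end Embed

/-- For every input alphabet `A` and every `n ≥ 1`,
`g(n) ≤ f(n) ≤ 2 ^ (84 n ^ 2)`: removing the nondeterminism of once-marking 1-limited automata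
costs at most a single exponential. -/
theorem result (A : Type) (n : ℕ) (hn : 1 ≤ n) :
    costDOMLA A n ≤ costTwoDFA A n ∧ costTwoDFA A n ≤ ((2 ^ (84 * n ^ 2) : ℕ) : ℕ∞) := by
  constructor
  · apply sInf_le_sInf
    rintro x ⟨m, rfl, hm⟩
    refine ⟨m, rfl, fun M hM => ?_⟩
    obtain ⟨m', hm', D, hD⟩ := hm M hM
    exact ⟨m', hm', embed D, embed_once D, embed_det D, fun w => by rw [embed_accepts, hD]⟩
  · apply sInf_le
    exact ⟨_, rfl, fun M hM => upper_bound n hn M hM⟩

end Pool.Agent.Results.MP_41802b_lc.OMLAExp
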